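import Pool.Agent.Helper56.MW.P4

/-!
# Martin's Maximum and sets definable from one set and ordinals

The universe of sets is `ZFSet`, a structure for the language of set theory `LSet` (one binary
relation symbol, read as true membership).  Ordinals are read as von Neumann ordinals
(`Ordinal.toZFSet`), and a real is a subset of `ω`.

The definitions used in the statement are in `Pool.Agent.Helper56.MW.Defs` (`MM`, `PreservesStat`,
`ForcesClub`, `GenericFor`, `OrdDef`, `HasDefWO`, `Splits`), `Pool.Agent.Helper56.MW.P3`
(`SuccCorrectOver`), `Pool.Agent.Helper56.MW.Base` (`LSet`, `univStructure`) and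
`Pool.Agent.Helper23.Pcf` (`ClubIn`, `StatIn`).
-/

open FirstOrder FirstOrder.Language Ordinal Cardinal Helper23.Pcf

universe u

namespace Pool.Agent.Helper56.Kept.DefinableFromOneSet

open Pool.Agent.Helper56.MW

/-- **Main theorem.**  Assume Martin's Maximum, and let `A` be a set such that

* every set is definable from `A` and finitely many ordinals;

or such that, for some ordinal definable set `Z` which contains `A` as an element (for instance
the set of all sets of rank at most the rank of `A`), one of the following holds: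

* for some cardinal `l ≥ ℵ₁, 2 ^ 2 ^ |Z|` every ordinal below `l⁺` is the image of `l` under a
  (partially defined) map which is definable from `A` and finitely many ordinals;
* some cardinal `l ≥ ℵ₁, 2 ^ 2 ^ |Z|` has more than `l` subsets that are definable from `A` and
  finitely many ordinals;
* for some regular cardinal `κ > ℵ₁, 2 ^ |Z|` there is a set `s`, definable from `A` and finitely
  many ordinals, such that `s` and its complement are both stationary among the ordinals below `κ`
  of countable cofinality.

Then the reals have a well-order which is definable without parameters. -/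
theorem result (h : MM.{u}) (A : ZFSet.{u})
    (hA : (∀ x : ZFSet.{u}, OrdDef A x) ∨
      ∃ Z : ZFSet.{u}, OrdDef ∅ Z ∧ A ∈ Z ∧
        ((∃ l : Cardinal.{u}, ℵ_ 1 ≤ l ∧ (2 : Cardinal.{u + 1}) ^ ((2 : Cardinal.{u + 1}) ^
            #{B : ZFSet.{u} // B ∈ Z}) ≤ Cardinal.lift.{u + 1} l ∧
            SuccCorrectOver A l) ∨
          (∃ l : Cardinal.{u}, ℵ_ 1 ≤ l ∧ (2 : Cardinal.{u + 1}) ^ ((2 : Cardinal.{u + 1}) ^
            #{B : ZFSet.{u} // B ∈ Z}) ≤ Cardinal.lift.{u + 1} l ∧
            Cardinal.lift.{u + 1} l < #{s : ZFSet.{u} // OrdDef A s ∧ s ⊆ l.ord.toZFSet}) ∨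
          (∃ κ : Cardinal.{u}, κ.IsRegular ∧ ℵ_ 1 < κ ∧
            (2 : Cardinal.{u + 1}) ^ #{B : ZFSet.{u} // B ∈ Z} < Cardinal.lift.{u + 1} κ ∧
            ∃ s, OrdDef A s ∧ Splits κ s))) :
    HasDefWO.{u} := by
  rcases hA with hA | ⟨Z, hZ, hAZ, hA⟩
  · exact hasDefWO_of_hod h hA
  · rcases hA with ⟨l, h1, h2, h3⟩ | ⟨l, h1, h2, h3⟩ | ⟨κ, hκ, h1, h2, s, hs, hsp⟩
    · exact hasDefWO_of_many_mem h hZ hAZ h1 h2
        (many_of_succCorrectOver ((Cardinal.aleph0_le_aleph 1).trans h1) h3)
    · exact hasDefWO_of_many_mem h hZ hAZ h1 h2 h3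
    · exact hasDefWO_of_splits_mem h hZ hAZ hκ h1 h2 hs hsp

end Pool.Agent.Helper56.Kept.DefinableFromOneSet
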