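import Pool.Agent.Helper56.HD.Final

/-!
# MP_950ff6_co: Hadwiger's conjecture and Q1 for very dense graphs

If every clique of the `k`-chromatic graph `G` misses at least `s` vertices and the complement of `G` has
maximum degree at most `D` with `2 ^ 33 * D ^ 4 ≤ s ^ 3`, then `G` has `K_k` as a minor whose branch sets
are cliques with one or two vertices, and therefore a `k`-scheme.
-/

set_option autoImplicit false

namespace Pool.Agent.Helper56.Kept.DenseGraphs

theorem result : ∀ (V : Type) [Fintype V] (G : SimpleGraph V) (k s D : ℕ),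
    G.chromaticNumber = (k : ℕ∞) →
    (∀ C : Finset V, G.IsClique C → C.card + s ≤ Fintype.card V) →
    (∀ v : V, {w | Gᶜ.Adj v w}.ncard ≤ D) →
    2 ^ 33 * D ^ 4 ≤ s ^ 3 →
    ∃ (B : Fin k → Set V) (x : Fin k → V) (P : (i j : Fin k) → G.Walk (x i) (x j)),
      (∀ i, x i ∈ B i ∧ (B i).ncard ≤ 2 ∧ G.IsClique (B i)) ∧
      (∀ i j, i ≠ j → Disjoint (B i) (B j) ∧ ∃ u ∈ B i, ∃ v ∈ B j, G.Adj u v) ∧
      Function.Injective x ∧
      (∀ i j, (P i j).IsPath ∧ ∀ v ∈ (P i j).support, v ∈ B i ∪ B j) ∧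
      (∀ i j h l : Fin k, i ≠ h → i ≠ l → j ≠ h → j ≠ l →
        ∀ v : V, v ∈ (P i j).support → v ∉ (P h l).support) := by
  classical
  intro V _ G k s D hk hs hD h
  exact Helper56.HD.final (Helper56.HD.target_of_large G k s D hk hs hD h)

end Pool.Agent.Helper56.Kept.DenseGraphs
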