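import Pool.Agent.Helper56.HD.BagFinal

/-!
# MP_950ff6_co: graphs whose complement has maximum degree at most `c n ^ (1 - 1 / b ^ 2)`

Every graph on `n` vertices whose complement has maximum degree at most `c n ^ (1 - 1 / b ^ 2)` has, for
every `k ≤ ⌈n / b⌉`, the graph `K_k` as a minor whose branch sets are cliques with at most `b` vertices,
and therefore a `k`-scheme.
-/

set_option autoImplicit false

namespace Pool.Agent.Helper56.Kept.LargerBags

theorem result : ∀ b : ℕ, 1 ≤ b → ∃ C : ℕ, ∀ (V : Type) [Fintype V] (G : SimpleGraph V) (k D : ℕ),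
    (∀ v : V, {w | Gᶜ.Adj v w}.ncard ≤ D) →
    C * D ^ (b ^ 2) ≤ Fintype.card V ^ (b ^ 2 - 1) →
    b * k < Fintype.card V + b →
    ∃ (B : Fin k → Set V) (x : Fin k → V) (P : (i j : Fin k) → G.Walk (x i) (x j)),
      (∀ i, x i ∈ B i ∧ (B i).ncard ≤ b ∧ G.IsClique (B i)) ∧
      (∀ i j, i ≠ j → Disjoint (B i) (B j) ∧ ∃ u ∈ B i, ∃ v ∈ B j, G.Adj u v) ∧
      Function.Injective x ∧
      (∀ i j, (P i j).IsPath ∧ ∀ v ∈ (P i j).support, v ∈ B i ∪ B j) ∧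
      (∀ i j h l : Fin k, i ≠ h → i ≠ l → j ≠ h → j ≠ l →
        ∀ v : V, v ∈ (P i j).support → v ∉ (P h l).support) := by
  intro b hb
  obtain ⟨C, hC⟩ := Helper56.HD.Multi.ceil_bags b hb
  refine ⟨C, ?_⟩
  intro V _ G k D hD hCD hk
  obtain ⟨B, x, h1, h2, h3, h4, h5⟩ := hC V G k D hD hCD hk
  obtain ⟨P, h6, h7, h8⟩ := Helper56.HD.Multi.scheme_of_cliques B x h1 h3 h4 h5
  exact ⟨B, x, P, fun i => ⟨h1 i, h2 i, h3 i⟩, fun i j hij => ⟨h4 i j hij, h5 i j hij⟩, h6, h7, h8⟩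

end Pool.Agent.Helper56.Kept.LargerBags
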