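import Pool.Agent.Helper56.CV.G1

/-!
MP_2e7a1b_nt.  Covering sets of the prime-free sequences `t ^ 4 * 2 ^ k + 1` (Izotov type) must
use, at arbitrarily large orders, very many primes of the same order.

For every `C`, `δ`, `N` there is an explicit kind of residue class of `t` (with the six primes
`3, 17, 257, 641, 65537, 6700417` covering all `k` not congruent to `2` modulo `4`, and the
factorisation of `4 x ^ 4 + 1` for the other `k`) such that for EVERY member of the class every
finite covering set of primes has mass at least `η` (any `η < 1/4`) on primes `p` of order `n ≥ N` whose order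
is shared by more than `threshold C δ n` elements of the covering set.
-/

namespace Pool.Agent.Helper56.Kept.LowMultiplicityCovers

/-- The multiplicative order of `2` modulo `p`. -/
noncomputable def ord (p : ℕ) : ℕ := orderOf (2 : ZMod p)

/-- The largest prime factor of `n`. -/
def gpf (n : ℕ) : ℕ := n.primeFactors.sup id

/-- The exact power of the largest prime factor of `n` dividing `n`. -/
def topPart (n : ℕ) : ℕ := gpf n ^ n.factorization (gpf n)

/-- If `n = q ^ a * m` with `q = gpf n` not dividing `m`, this is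
`(q ^ a) ^ (1 - δ) * m ^ (min (1 - δ) (C / log q))`. -/
noncomputable def threshold (C δ : ℝ) (n : ℕ) : ℝ :=
  (topPart n : ℝ) ^ (1 - δ) *
    ((n / topPart n : ℕ) : ℝ) ^ (min (1 - δ) (C / Real.log (gpf n)))

/-- `P` is a finite covering set of primes for the sequence `d * 2 ^ k + 1`, `k ≥ 1`. -/
def IsCoveringSet (d : ℕ) (P : Finset ℕ) : Prop :=
  (∀ p ∈ P, p.Prime) ∧ ∀ k : ℕ, 1 ≤ k → ∃ p ∈ P, p ∣ d * 2 ^ k + 1

open Classical in
theorem result : ∀ C δ η : ℝ, 0 ≤ C → 0 < δ → δ < 1 → η < 1 / 4 → ∀ N : ℕ,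
    ∃ a M : ℕ, 0 < M ∧ ∀ t : ℕ, t ≡ a [MOD M] →
      Odd t ∧ (∀ k : ℕ, 1 ≤ k → ¬ (t ^ 4 * 2 ^ k + 1).Prime) ∧
      ∀ P : Finset ℕ, IsCoveringSet (t ^ 4) P →
        η ≤ ∑ p ∈ P.filter (fun p => N ≤ ord p ∧
            threshold C δ (ord p) < ((P.filter (fun p' => ord p' = ord p)).card : ℝ)),
          (2 : ℝ) ^ (ord p).primeFactors.card / (ord p : ℝ) :=
  fun C δ η hC hδ hδ1 hη N => Pool.Agent.H56.CV.deterministic2 C δ η hC hδ hδ1 hη N

end Pool.Agent.Helper56.Kept.LowMultiplicityCovers
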