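import Pool.Agent.Helper56.SS.Steps

/-!
# Finite generation of cohomology along extensions on which `B` acts through a semisimple quotient

Let `k` be any field and `k → A → B → C → k` an exact sequence of Hopf algebras over `k` such that
`B` is finite-dimensional.  We show: if `B` acts on `A`, in the adjoint action
`b ▷ a = ∑ b₁ a S(b₂)`, through a semisimple quotient Hopf algebra `D` of `B`, and `C` satisfies the
FGC conjecture, then `B` satisfies the FGC conjecture.  (Here `A` need not be commutative or
cocommutative, and nothing else is assumed on `A`, `B`, `C`.)  If `D = k` then `A` is central.

The theorem is stated for the Hopf algebras `B` reached from `C` by finitely many steps, in any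
order, each of which is such an extension, or an extension with semisimple kernel, or an extension
with semisimple quotient, or the passage to a Hopf subalgebra.

The definitions used are in `Pool/Agent/Helper59/FG/CohDefs.lean`,
`Pool/Agent/Helper90/FC/Defs.lean`, `Pool/Agent/Helper90/UN/Defs.lean` and
`Pool/Agent/Helper56/SS/StepsDefs.lean`: `trivObj k B` is `k` with the action through the counit,
as an object of `ModuleCat B`; `EndExt X n` is Mathlib's group `Ext X X n`, and `⨁ n, EndExt X n`
carries the ring structure given by the Yoneda product `x * y = x.comp y`; `KExt k M n` is the group
`Ext (trivObj k B) M n = H^n(B, M)`, and `⨁ n, KExt k M n` is a module over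
`⨁ n, EndExt (trivObj k B) n = H^*(B, k)` by the Yoneda product; `FGC k B` says that
`H^*(B, k)` is a finitely generated algebra and that `H^*(B, M)` is a finitely generated module over
it for all finite-dimensional `M`; `adj k b x = ∑ b₁ x S(b₂)` is the adjoint action;
`HopfExact k ι π` says that `ι : A → B` is injective, `π : B → B'` surjective and that the kernel of
`π` is the left ideal generated by `ι(A⁺)`; `ActsThrough k ι p` says that `p : B → D` is surjective
and that `adj k b (ι a) = 0` for all `b` with `p b = 0`; `Steps k C B` says that `B` is reached from
`C` by finitely many (possibly zero) steps of the four kinds above.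
-/

open Pool.Agent.Helper90.FC Pool.Agent.Helper56.SS

namespace Pool.Agent.Helper56.Kept.SemisimpleAction

universe u

/-- Let `B` be a finite-dimensional Hopf algebra reached from `C` by finitely many steps of the
following kinds (for instance, one step of the first kind): from `B'` to `B` in an exact sequence
`k → A → B → B' → k` such that `B` acts on `A` through a semisimple quotient Hopf algebra of `B`, or
such that `A` is semisimple; from `A` to `B` in an exact sequence `k → A → B → D → k` with `D`
semisimple; from a finite-dimensional Hopf algebra to a Hopf subalgebra. If `C` satisfies the FGC
conjecture, then so does `B`. -/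
theorem result (k : Type u) [Field k] (B C : Type u) [Ring B] [Ring C] [HopfAlgebra k B]
    [HopfAlgebra k C] [Module.Finite k B] (h : Steps k C B) (hC : FGC k C) : FGC k B :=
  steps_fgc hC h inferInstance

end Pool.Agent.Helper56.Kept.SemisimpleAction
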