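import Pool.Agent.Helper56.CV.G2

/-!
MP_2e7a1b_nt.  For all but a proportion `ε` of the `t ≤ X` in a residue class for which
`t ^ 4 * 2 ^ k + 1` is composite for every `k ≥ 1`, every finite covering set of primes of `t ^ 4`
must contain primes `p > X ^ (2 c)` of order at least `X ^ c`, and of mass at least `η`, whose
order is shared by more than `threshold C δ n` of the primes `> X ^ (2 c)` of the covering set;
here `c < 1/4` and `η < 1/4` are arbitrary.
-/

namespace Pool.Agent.Helper56.Kept.TypicalMembers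

/-- The multiplicative order of `2` modulo `p`. -/
noncomputable def ord (p : ℕ) : ℕ := orderOf (2 : ZMod p)

/-- The largest prime factor of `n`. -/
def gpf (n : ℕ) : ℕ := n.primeFactors.sup id

/-- The exact power of the largest prime factor of `n` dividing `n`. -/
def topPart (n : ℕ) : ℕ := gpf n ^ n.factorization (gpf n)

/-- If `n = q ^ a * m` with `q = gpf n` not dividing `m`, this is
`(q ^ a) ^ (1 - δ) * m ^ (min (1 - δ) (C / log q))`. -/
noncomputable def threshold (C δ : ℝ) (n : ℕ) : ℝ :=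
  (topPart n : ℝ) ^ (1 - δ) *
    ((n / topPart n : ℕ) : ℝ) ^ (min (1 - δ) (C / Real.log (gpf n)))

/-- `P` is a finite covering set of primes for the sequence `d * 2 ^ k + 1`, `k ≥ 1`. -/
def IsCoveringSet (d : ℕ) (P : Finset ℕ) : Prop :=
  (∀ p ∈ P, p.Prime) ∧ ∀ k : ℕ, 1 ≤ k → ∃ p ∈ P, p ∣ d * 2 ^ k + 1

open Classical in
/-- The mass (weight `2 ^ ω(n) / n` for a prime of order `n`) of the primes `p > W` of `P` with
`ord p ≥ N` whose order is shared by more than `threshold C δ (ord p)` of the primes `> W`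
of `P`. -/
noncomputable def highMass (C δ W N : ℝ) (P : Finset ℕ) : ℝ :=
  ∑ p ∈ P.filter (fun p : ℕ => W < (p : ℝ) ∧ N ≤ (ord p : ℝ) ∧
      threshold C δ (ord p) <
        (((P.filter (fun p' : ℕ => W < (p' : ℝ))).filter (fun p' => ord p' = ord p)).card : ℝ)),
    (2 : ℝ) ^ (ord p).primeFactors.card / (ord p : ℝ)

open Classical in
theorem result : ∀ C δ c η : ℝ, 0 ≤ C → 0 < δ → δ < 1 → 0 < c → c < 1 / 4 → η < 1 / 4 →
    ∀ ε : ℝ, 0 < ε →
    ∃ a M : ℕ, 0 < M ∧
      (∀ t : ℕ, t ≡ a [MOD M] → Odd t ∧ ∀ k : ℕ, 1 ≤ k → ¬ (t ^ 4 * 2 ^ k + 1).Prime) ∧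
      ∃ X0 : ℕ, ∀ X : ℕ, X0 ≤ X →
        (((Finset.range X).filter (fun t => t ≡ a [MOD M] ∧
          ∃ P : Finset ℕ, IsCoveringSet (t ^ 4) P ∧
            highMass C δ ((X : ℝ) ^ (2 * c)) ((X : ℝ) ^ c) P < η)).card : ℝ) ≤
          ε * (X / M) :=
  fun C δ c η hC hδ hδ1 hc hc4 hη ε hε =>
    Pool.Agent.H56.CV.density2 C δ c η hC hδ hδ1 hc hc4 hη ε hε

end Pool.Agent.Helper56.Kept.TypicalMembers
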